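import Pool.Agent.H360.JK.Main
import Pool.Graph.R_pool_sql_team_seeded_620a6dc7.Helper52_KD.Fin

/-!
# The parts of the normalised bracket of a knotoid with exponents `0` and `2` modulo `4`
-/

set_option autoImplicit false

namespace Pool.Agent.H360.KN

open Finset LaurentPolynomial Pool.Agent.H891R2.Jones Pool.Agent.W639.RB Pool.Agent.Y463.SK
  Pool.Agent.Y463.MP Pool.Agent.Helper52_CV Pool.Agent.H360.JK Pool.Agent.Helper52_KD

/-- all exponents are congruent to `r` modulo `4` -/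
def G (r : ℤ) (f : ℤ[T;T⁻¹]) : Prop := ∀ n, f.coeff n ≠ 0 → (4 : ℤ) ∣ n - r

theorem G.zero (r : ℤ) : G r 0 := fun _ h => (h rfl).elim

theorem G.add {r : ℤ} {f g : ℤ[T;T⁻¹]} (hf : G r f) (hg : G r g) : G r (f + g) := by
  intro n h
  rw [AddMonoidAlgebra.coeff_add, Finsupp.add_apply] at h
  by_cases h1 : f.coeff n = 0
  · exact hg n (by rintro h2; rw [h1, h2] at h; exact h rfl)
  · exact hf n h1

theorem G.neg {r : ℤ} {f : ℤ[T;T⁻¹]} (hf : G r f) : G r (-f) := by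
  intro n h
  rw [AddMonoidAlgebra.coeff_neg, Finsupp.neg_apply] at h
  exact hf n (by simpa using h)

theorem G.sub {r : ℤ} {f g : ℤ[T;T⁻¹]} (hf : G r f) (hg : G r g) : G r (f - g) := by
  rw [sub_eq_add_neg]; exact hf.add hg.neg

theorem G.T_mul {r : ℤ} {f : ℤ[T;T⁻¹]} (hf : G r f) (m : ℤ) : G (r + m) (T m * f) := by
  intro n h
  rw [coeff_T_mul] at h
  have := hf _ h
  have e : n - (r + m) = n - m - r := by ring
  rw [e]; exact this

theorem G.cg {r s : ℤ} {f : ℤ[T;T⁻¹]} (hf : G r f) (h : (4 : ℤ) ∣ r - s) : G s f := by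
  intro n hn
  have := hf n hn
  have e : n - s = (n - r) + (r - s) := by ring
  rw [e]; exact dvd_add this h

theorem dl_eq : dl = -T 2 - T (-2) := by
  unfold dl
  rw [T_pow, T_pow]; norm_num

theorem G.dl_mul {r : ℤ} {f : ℤ[T;T⁻¹]} (hf : G r f) : G (r + 2) (dl * f) := by
  have e : dl * f = -(T 2 * f) - T (-2) * f := by rw [dl_eq]; ring
  rw [e]
  exact (hf.T_mul 2).neg.sub ((hf.T_mul (-2)).cg ⟨-1, by ring⟩)

theorem G.eq_zero {r s : ℤ} {f : ℤ[T;T⁻¹]} (hr : G r f) (hs : G s f) (h : ¬ (4 : ℤ) ∣ r - s) :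
    f = 0 := by
  apply LaurentPolynomial.ext
  intro n
  by_contra hn
  have h1 := hr n hn
  have h2 := hs n hn
  apply h
  have e : r - s = (n - s) - (n - r) := by ring
  rw [e]; exact dvd_sub h2 h1

/-- graded coordinates -/
structure GE (e : ℤ) (y : Co ℤ[T;T⁻¹]) : Prop where
  o : G e y.o
  a : G (e + 2) y.a
  b : G (e + 2) y.b
  c : G (e + 2) y.c
  ab : G e y.ab
  ba : G e y.ba
  bc : G e y.bc
  cb : G e y.cb
  ac : G e y.ac
  abc : G (e + 2) y.abc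
  cba : G (e + 2) y.cba
  bac : G (e + 2) y.bac
  acb : G (e + 2) y.acb
  bacb : G e y.bacb

theorem G.up {r : ℤ} {f : ℤ[T;T⁻¹]} (hf : G r f) : G (r + 2 + 2) f := hf.cg ⟨-1, by ring⟩

theorem GE.mA {e : ℤ} {y : Co ℤ[T;T⁻¹]} (h : GE e y) : GE (e + 2) (y.mA dl) where
  o := G.zero _
  a := (h.o.up.add h.a.dl_mul).add h.ba.up
  b := G.zero _
  c := G.zero _
  ab := h.b.add h.ab.dl_mul
  ba := G.zero _
  bc := G.zero _
  cb := G.zero _
  ac := ((h.c.add h.ac.dl_mul).add h.cba).add h.bac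
  abc := h.bc.up.add h.abc.dl_mul
  cba := G.zero _
  bac := G.zero _
  acb := (h.cb.up.add h.acb.dl_mul).add h.bacb.up
  bacb := G.zero _

theorem GE.mB {e : ℤ} {y : Co ℤ[T;T⁻¹]} (h : GE e y) : GE (e + 2) (y.mB dl) where
  o := G.zero _
  a := G.zero _
  b := ((h.o.up.add h.b.dl_mul).add h.ab.up).add h.cb.up
  c := G.zero _
  ab := G.zero _
  ba := (h.a.add h.ba.dl_mul).add h.cba
  bc := (h.c.add h.bc.dl_mul).add h.abc
  cb := G.zero _
  ac := G.zero _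
  abc := G.zero _
  cba := G.zero _
  bac := h.ac.up.add h.bac.dl_mul
  acb := G.zero _
  bacb := h.acb.add h.bacb.dl_mul

theorem GE.mC {e : ℤ} {y : Co ℤ[T;T⁻¹]} (h : GE e y) : GE (e + 2) (y.mC dl) where
  o := G.zero _
  a := G.zero _
  b := G.zero _
  c := (h.o.up.add h.c.dl_mul).add h.bc.up
  ab := G.zero _
  ba := G.zero _
  bc := G.zero _
  cb := h.b.add h.cb.dl_mul
  ac := ((h.a.add h.ac.dl_mul).add h.abc).add h.bac
  abc := G.zero _
  cba := h.ba.up.add h.cba.dl_mul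
  bac := G.zero _
  acb := (h.ab.up.add h.acb.dl_mul).add h.bacb.up
  bacb := G.zero _

theorem GE.mE {e : ℤ} {y : Co ℤ[T;T⁻¹]} (h : GE e y) (i : ℕ) : GE (e + 2) (y.mE dl i) := by
  unfold Co.mE
  split_ifs
  · exact h.mA
  · exact h.mB
  · exact h.mC

theorem GE.comb {e e' m m' d : ℤ} {y y' : Co ℤ[T;T⁻¹]} (h : GE e y) (h' : GE e' y')
    (h1 : (4 : ℤ) ∣ e + m - d) (h2 : (4 : ℤ) ∣ e' + m' - d) :
    GE d (Co.comb (T m) (T m') y y') := by
  have k1 : (4 : ℤ) ∣ e + 2 + m - (d + 2) := by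
    have : e + 2 + m - (d + 2) = e + m - d := by ring
    rw [this]; exact h1
  have k2 : (4 : ℤ) ∣ e' + 2 + m' - (d + 2) := by
    have : e' + 2 + m' - (d + 2) = e' + m' - d := by ring
    rw [this]; exact h2
  constructor <;> dsimp only [Co.comb]
  · exact ((h.o.T_mul m).cg h1).add ((h'.o.T_mul m').cg h2)
  · exact ((h.a.T_mul m).cg k1).add ((h'.a.T_mul m').cg k2)
  · exact ((h.b.T_mul m).cg k1).add ((h'.b.T_mul m').cg k2)
  · exact ((h.c.T_mul m).cg k1).add ((h'.c.T_mul m').cg k2)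
  · exact ((h.ab.T_mul m).cg h1).add ((h'.ab.T_mul m').cg h2)
  · exact ((h.ba.T_mul m).cg h1).add ((h'.ba.T_mul m').cg h2)
  · exact ((h.bc.T_mul m).cg h1).add ((h'.bc.T_mul m').cg h2)
  · exact ((h.cb.T_mul m).cg h1).add ((h'.cb.T_mul m').cg h2)
  · exact ((h.ac.T_mul m).cg h1).add ((h'.ac.T_mul m').cg h2)
  · exact ((h.abc.T_mul m).cg k1).add ((h'.abc.T_mul m').cg k2)
  · exact ((h.cba.T_mul m).cg k1).add ((h'.cba.T_mul m').cg k2)
  · exact ((h.bac.T_mul m).cg k1).add ((h'.bac.T_mul m').cg k2)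
  · exact ((h.acb.T_mul m).cg k1).add ((h'.acb.T_mul m').cg k2)
  · exact ((h.bacb.T_mul m).cg h1).add ((h'.bacb.T_mul m').cg h2)

/-- signed length -/
def sx (w : List (Bool × ℕ)) : ℤ := (w.map fun x => if x.1 then (1 : ℤ) else -1).sum

theorem sx_append (u v : List (Bool × ℕ)) : sx (u ++ v) = sx u + sx v := by
  simp [sx]

theorem sx_inv (u : List (Bool × ℕ)) : sx (invL u) = -sx u := by
  induction u with
  | nil => simp [sx, invL]
  | cons x u ih =>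
    have e : invL (x :: u) = invL u ++ invL [x] := by simp [invL]
    have e2 : sx (x :: u) = sx [x] + sx u := by simp [sx]
    rw [e, sx_append, ih, e2]
    have : sx (invL [x]) = - sx [x] := by
      obtain ⟨b, i⟩ := x
      cases b <;> simp [sx, invL]
    rw [this]; ring

theorem sx_cm (u v : List (Letter 4)) : sx (toN (cm u v)) = 0 := by
  rw [toN_cm]
  unfold cmL
  rw [sx_append, sx_append, sx_append, sx_inv, sx_inv]
  ring

theorem GE.word (w : List (Bool × ℕ)) : GE (sx w) (coW (T 1) (T (-1)) dl w) := by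
  induction w with
  | nil =>
    have h1 : G 0 (1 : ℤ[T;T⁻¹]) := by
      intro n h
      rw [← T_zero, T_apply] at h
      by_cases hn : (0 : ℤ) = n
      · subst hn; simp
      · rw [if_neg hn] at h; exact (h rfl).elim
    constructor <;> first | exact h1 | exact G.zero _
  | cons x w ih =>
    have e2 : sx (x :: w) = (if x.1 then 1 else -1) + sx w := by simp [sx]
    rw [e2, coW]
    by_cases hx : x.1 = true
    · rw [if_pos hx, if_pos hx]
      exact ih.comb (ih.mE x.2) ⟨0, by ring⟩ ⟨0, by ring⟩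
    · rw [if_neg hx, if_neg hx]
      exact ih.comb (ih.mE x.2) ⟨0, by ring⟩ ⟨1, by ring⟩

/-! ### the functional -/

/-- the two parts of the functional of the outside `snail` -/
noncomputable def S1 (y : Co ℤ[T;T⁻¹]) : ℤ[T;T⁻¹] :=
  dl * (dl * y.o) + dl * y.b + dl * y.c + y.bc + y.cb + y.bacb
noncomputable def S2 (y : Co ℤ[T;T⁻¹]) : ℤ[T;T⁻¹] :=
  dl * (dl * y.a) + dl * y.ab + dl * y.ba + dl * y.ac + y.abc + y.cba + y.bac + y.acb

theorem SN_lin (y : Co ℤ[T;T⁻¹]) :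
    SN (y.lin (EZ 4 0) (EZ 4 1) (EZ 4 2)) = S1 y + S2 y := by
  unfold Co.lin S1 S2
  have h1 : EZ 4 1 * EZ 4 0 * EZ 4 2 * EZ 4 1 = EZ 4 1 * (EZ 4 0 * (EZ 4 2 * EZ 4 1)) := by
    simp only [mul_assoc]
  rw [h1, mul_assoc (EZ 4 0), mul_assoc (EZ 4 2), mul_assoc (EZ 4 1), mul_assoc (EZ 4 0)]
  simp only [LinearMap.map_add, LinearMap.map_smul, SN_one, SN_E0, SN_E1, SN_E2, SN_E01, SN_E10,
    SN_E12, SN_E21, SN_E02, SN_E012, SN_E210, SN_E102, SN_E021, SN_E1021, smul_eq_mul]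
  ring

theorem S1_G {e : ℤ} {y : Co ℤ[T;T⁻¹]} (h : GE e y) : G e (S1 y) := by
  unfold S1
  have d4 : ∀ {f : ℤ[T;T⁻¹]}, G (e + 2 + 2) f → G e f := fun hf => hf.cg ⟨1, by ring⟩
  exact ((((d4 h.o.dl_mul.dl_mul).add (d4 h.b.dl_mul)).add (d4 h.c.dl_mul)).add h.bc).add h.cb
    |>.add h.bacb

theorem S2_G {e : ℤ} {y : Co ℤ[T;T⁻¹]} (h : GE e y) : G (e + 2) (S2 y) := by
  unfold S2
  have d4 : ∀ {f : ℤ[T;T⁻¹]}, G (e + 2 + 2 + 2) f → G (e + 2) f := fun hf => hf.cg ⟨1, by ring⟩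
  exact (((((((d4 h.a.dl_mul.dl_mul).add h.ab.dl_mul).add h.ba.dl_mul).add h.ac.dl_mul).add
    h.abc).add h.cba).add h.bac).add h.acb

/-- the matrix of the functional on the three-dimensional representation -/
noncomputable def CM {R : Type*} [CommRing R] (A A' : R) : Matrix (Fin 3) (Fin 3) R :=
  !![(-A ^ 2 - A' ^ 2) ^ 2 - 1, A ^ 2 * (-A ^ 2 - A' ^ 2), 0; 0, -1, 0; 0, 0, -1]

/-- **the formula for the odd part** -/
theorem S2_eq (w : List (Letter 4)) : (dl * (dl ^ 2 - 1)) * S2 (co w) =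
    (dl ^ 2 - 1) * (CM (T 1 : ℤ[T;T⁻¹]) (T (-1)) * r3 (T 1) (T (-1)) (toN w)).trace +
      (((dl ^ 2 - 1) * (r2 (T 1) (T (-1)) (toN w)) 0 0 + T 1 ^ 2 * dl * (r2 (T 1) (T (-1)) (toN w)) 1 0
        - (r2 (T 1) (T (-1)) (toN w)) 1 1) -
        ((dl ^ 2 - 1) ^ 2 - (dl ^ 2 - 1) - 1) * r1 (T 1) (T (-1)) (toN w)) := by
  rw [r1_co, r3_co TT', r2_co TT']
  have e : coW (T 1 : ℤ[T;T⁻¹]) (T (-1)) (-(T 1) ^ 2 - (T (-1)) ^ 2) (toN w) = co w := rfl
  rw [e]
  generalize co w = y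
  have hs : (T 1 : ℤ[T;T⁻¹]) ^ 2 * T (-1) ^ 2 = 1 := by rw [← mul_pow, TT', one_pow]
  unfold Co.m3 Co.m2 CM
  simp only [Matrix.trace_fin_three, Matrix.mul_apply, Fin.sum_univ_three, Matrix.of_apply,
    Matrix.cons_val', Matrix.cons_val_zero, Matrix.cons_val_one, Matrix.cons_val]
  have ed : (-(T 1) ^ 2 - (T (-1)) ^ 2 : ℤ[T;T⁻¹]) = dl := rfl
  rw [ed]
  unfold S2
  linear_combination (-(dl ^ 2 - 1) * dl * (y.b + y.ba * dl) -
    dl * ((y.b + y.bacb * dl) + (y.ba + y.bc + y.bac * dl) * dl)) * hs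

end Pool.Agent.H360.KN
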