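import Pool.Agent.H360.KN.Grade

/-!
# Proper knotoids with normalised bracket `1` modulo `(30 (1 - t^N))^k`
-/

set_option autoImplicit false

namespace Pool.Agent.H360.KN

open Finset LaurentPolynomial Pool.Agent.H891R2.Jones Pool.Agent.W639.RB Pool.Agent.Y463.SK
  Pool.Agent.Y463.MP Pool.Agent.Helper52_CV Pool.Agent.H360.JK Pool.Agent.Helper52_KD
  Pool.Agent.H832R3.TW Pool.Agent.Y463.KN

/-- the matrix of the functional at `A = 1/7` -/
theorem res_CM : Res 4 !![1, 6, 0; 0, 0, 0; 0, 0, 0] (CM (1 / 7 : ℚ) 7) := by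
  refine ⟨!![5767203, -2402, 0; 0, -2401, 0; 0, 0, -2401], ?_, ?_⟩
  · ext i j
    fin_cases i <;> fin_cases j <;> simp [CM] <;> norm_num
  · ext i j
    fin_cases i <;> fin_cases j <;> simp <;> decide

theorem res_b1 : Res 2 !![1, 0, 0; 0, 0, 1; 0, 0, 0] (q3 (toN b1)) := by
  have h := res_word [(true, 2), (true, 1)] 2 0 (by decide +kernel)
    (a := 1) (b := 0) (c := 0) (a' := 0) (b' := 0) (c' := 0) (a'' := 0) (b'' := 1) (c'' := 0)
    (by decide +kernel)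
  norm_num at h
  exact h

/-- the odd parts -/
noncomputable def od (u : List (Letter 4)) : ℤ[T;T⁻¹] := T (-6) * S2 (co (b1 ++ u))
noncomputable def ev' (u : List (Letter 4)) : ℤ[T;T⁻¹] := T (-6) * S1 (co (b1 ++ u))

theorem sx_A (N i : ℕ) : sx (toN (AN N i)) = 0 := by
  cases i <;> exact sx_cm _ _

theorem sx_b1 : sx (toN b1) = 2 := by decide

theorem GE_A (N i : ℕ) : GE 2 (co (b1 ++ AN N i)) := by
  have h := GE.word (toN (b1 ++ AN N i))
  rw [toN_append, sx_append, sx_A, add_zero, sx_b1] at h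
  unfold co
  rw [toN_append]
  exact h

theorem od_G (N i : ℕ) : G 2 (od (AN N i)) :=
  ((S2_G (GE_A N i)).T_mul (-6)).cg ⟨-1, by ring⟩

theorem ev_G (N i : ℕ) : G 0 (ev' (AN N i)) :=
  ((S1_G (GE_A N i)).T_mul (-6)).cg ⟨-1, by ring⟩

theorem fPoly_A (N i : ℕ) : (dia snail (b1 ++ AN N i)).fPoly = ev' (AN N i) + od (AN N i) := by
  have hc := (st_A N i).cost
  have hw : (dia snail (b1 ++ AN N i)).writhe = 2 := by
    have := writhe_dia snail b1
    rw [writhe_b1] at this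
    rw [writhe_dia, toN_append, costS_append, hc, add_zero]
    exact this.symm
  have hb : (dia snail (b1 ++ AN N i)).bracket = SN (zz (b1 ++ AN N i)) :=
    bracket_dia (by norm_num) _ _
  unfold Diagram.fPoly ev' od
  rw [hw, hb, if_pos (by decide), zz_co, SN_lin]
  have e : (T (-3 * 2) : ℤ[T;T⁻¹]) = T (-6) := by norm_num
  rw [e]
  ring

/-- **the odd parts are pairwise different** -/
theorem od_ne (N : ℕ) (hN : 1 ≤ N) {i j : ℕ} (hij : i < j) : od (AN N i) ≠ od (AN N j) := by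
  intro h
  have h0 : S2 (co (b1 ++ AN N i)) = S2 (co (b1 ++ AN N j)) := by
    have hT : (T 6 : ℤ[T;T⁻¹]) * T (-6) = 1 := by rw [← T_add]; norm_num
    unfold od at h
    linear_combination (T 6) * h - (S2 (co (b1 ++ AN N i)) - S2 (co (b1 ++ AN N j))) * hT
  have key : ∀ i, ∃ K : ℤ[T;T⁻¹], K = (((dl ^ 2 - 1) * (r2 (T 1 : ℤ[T;T⁻¹]) (T (-1)) (toN b1)) 0 0 +
        T 1 ^ 2 * dl * (r2 (T 1 : ℤ[T;T⁻¹]) (T (-1)) (toN b1)) 1 0
        - (r2 (T 1 : ℤ[T;T⁻¹]) (T (-1)) (toN b1)) 1 1) -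
        ((dl ^ 2 - 1) ^ 2 - (dl ^ 2 - 1) - 1) * r1 (T 1 : ℤ[T;T⁻¹]) (T (-1)) (toN b1)) ∧
      e7 ((dl * (dl ^ 2 - 1)) * S2 (co (b1 ++ AN N i))) =
      e7 (dl ^ 2 - 1) * (CM (1 / 7 : ℚ) 7 * q3 (toN b1) * q3 (toN (AN N i))).trace + e7 K := by
    intro i
    refine ⟨_, rfl, ?_⟩
    rw [S2_eq, toN_append, r1_append, r2_append, r1_A TT', r2_A TT', mul_one, mul_one, map_add,
      map_mul]
    congr 2
    have hc : (CM (T 1 : ℤ[T;T⁻¹]) (T (-1))).map e7 = CM (1 / 7 : ℚ) 7 := by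
      unfold CM
      ext i j
      fin_cases i <;> fin_cases j <;> simp [e7_T1, e7_Tm1, -LaurentPolynomial.T_pow]
    rw [r3_append, ← hc, ← e7_r3, ← e7_r3, mul_assoc, ← Matrix.map_mul, ← Matrix.map_mul,
      AddMonoidHom.map_trace]
  obtain ⟨K, hK, h1⟩ := key i
  obtain ⟨K', hK', h1'⟩ := key j
  rw [← hK] at hK'
  rw [h0, h1', hK'] at h1
  have h2 : e7 (dl ^ 2 - 1) ≠ 0 := by
    unfold dl
    rw [map_sub, map_pow, map_sub, map_neg, map_pow, map_pow, map_one, e7_T1, e7_Tm1]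
    norm_num
  have h3 := mul_left_cancel₀ h2 (add_right_cancel h1)
  refine ((res_CM.mul res_b1).mul (rr_A N hN i).fst).trace_ne
    ((res_CM.mul res_b1).mul (rr_A N hN j).fst) ?_ ?_ h3.symm
  · have := eA_mono N hij
    linarith
  · decide +kernel

theorem od_inj (N : ℕ) (hN : 1 ≤ N) : Function.Injective (fun i : ℕ => od (AN N i)) :=
  Function.Injective.of_lt_imp_ne fun _ _ hi => od_ne N hN hi

theorem exists_ne (N : ℕ) (hN : 1 ≤ N) : ∃ s : ℕ, ∀ i, od (AN N (i + s)) ≠ 0 := by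
  by_cases h : ∃ j, od (AN N j) = 0
  · obtain ⟨j, hj⟩ := h
    refine ⟨j + 1, fun i hi => ?_⟩
    have := od_inj N hN (hi.trans hj.symm)
    omega
  · exact ⟨0, fun i hi => h ⟨_, hi⟩⟩

/-- the part of a Laurent polynomial with exponents congruent to `2` modulo `4` -/
noncomputable def part2 (f : ℤ[T;T⁻¹]) : ℤ[T;T⁻¹] :=
  AddMonoidAlgebra.ofCoeff (f.coeff.filter (fun n => (4 : ℤ) ∣ n - 2))

theorem part2_coeff (f : ℤ[T;T⁻¹]) (n : ℤ) :
    (part2 f).coeff n = if (4 : ℤ) ∣ n - 2 then f.coeff n else 0 := by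
  unfold part2
  rw [AddMonoidAlgebra.coeff_ofCoeff, Finsupp.filter_apply]

theorem part2_eq {f g : ℤ[T;T⁻¹]} (hf : G 0 f) (hg : G 2 g) : part2 (f + g) = g := by
  apply LaurentPolynomial.ext
  intro n
  rw [part2_coeff, AddMonoidAlgebra.coeff_add, Finsupp.add_apply]
  by_cases h : (4 : ℤ) ∣ n - 2
  · rw [if_pos h]
    by_cases h1 : f.coeff n = 0
    · rw [h1, zero_add]
    · have := hf n h1
      omega
  · rw [if_neg h]
    by_contra h1
    exact h (hg n (Ne.symm h1))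

/-! ### the result -/

theorem main (N k : ℕ) (hN : 1 ≤ N) :
    ∃ u : ℕ → List (Letter 4),
    (∀ i, IsPure (u i)) ∧
    (∀ i (O : Outer 4) (v w : List (Letter 4)),
      (30 * (1 - T (-4) ^ N) : ℤ[T;T⁻¹]) ^ k ∣
        (dia O (v ++ u i ++ w)).fPoly - (dia O (v ++ w)).fPoly) ∧
    (∀ i, IsKnotoid (dia snail (b1 ++ u i)) ∧
      (∀ x y, (permW (b1 ++ u i) * Equiv.swap 0 1).SameCycle x y) ∧
      (30 * (1 - T (-4) ^ N) : ℤ[T;T⁻¹]) ^ k ∣ (dia snail (b1 ++ u i)).fPoly - 1 ∧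
      (∀ n : ℤ, (dia snail (b1 ++ u i)).fPoly.coeff n ≠ 0 → (2 : ℤ) ∣ n) ∧
      (∃ n : ℤ, (4 : ℤ) ∣ n - 2 ∧ (dia snail (b1 ++ u i)).fPoly.coeff n ≠ 0)) ∧
    Function.Injective (fun i => part2 (dia snail (b1 ++ u i)).fPoly) := by
  obtain ⟨s, hs⟩ := exists_ne N hN
  have hdvd : ∀ j : ℕ, k ≤ j → (30 * (1 - T (-4) ^ N) : ℤ[T;T⁻¹]) ^ k ∣ mN N ^ j := by
    intro j hj
    refine (pow_dvd_pow_of_dvd ?_ k).trans (pow_dvd_pow _ hj)
    have h := (dvd_one_sub N N ⟨6, by ring⟩).trans (dvd_yx N)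
    obtain ⟨q, hq⟩ := h
    refine ⟨q, ?_⟩
    unfold mN
    linear_combination 30 * hq
  have hmove : ∀ (i : ℕ) (O : Outer 4) (a b : List (Letter 4)),
      (30 * (1 - T (-4) ^ N) : ℤ[T;T⁻¹]) ^ k ∣
        (dia O (a ++ AN N (i + k + s) ++ b)).fPoly - (dia O (a ++ b)).fPoly := by
    intro i O a b
    obtain ⟨G, hG⟩ := fPoly_move (by norm_num) (st_A N (i + k + s)) O a b
    rw [hG, add_sub_cancel_left]
    exact Dvd.dvd.mul_right (hdvd _ (by omega)) _
  refine ⟨fun i => AN N (i + k + s), fun i => permW_one _ (st_A N (i + k + s)).perm, hmove,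
    fun i => ⟨knotoid_dia snail knotoid_snail _ (fun _ => rfl), cycle_b1 _ (st_A N _).perm,
      ?_, ?_, ?_⟩, ?_⟩
  · have h := hmove i snail b1 []
    rwa [List.append_nil, List.append_nil, fPoly_b1] at h
  · intro n hn
    rw [fPoly_A, AddMonoidAlgebra.coeff_add, Finsupp.add_apply] at hn
    by_cases h1 : (ev' (AN N (i + k + s))).coeff n = 0
    · rw [h1, zero_add] at hn
      have := od_G N (i + k + s) n hn
      omega
    · have := ev_G N (i + k + s) n h1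
      omega
  · have h1 := part2_eq (ev_G N (i + k + s)) (od_G N (i + k + s))
    rw [← fPoly_A] at h1
    by_contra hcon
    push Not at hcon
    refine hs (i + k) ?_
    rw [← h1]
    apply LaurentPolynomial.ext
    intro n
    rw [part2_coeff]
    split_ifs with h
    · exact hcon n h
    · rfl
  · intro i j hij
    simp only [fPoly_A, part2_eq (ev_G _ _) (od_G _ _)] at hij
    have := od_inj N hN hij
    omega

end Pool.Agent.H360.KN
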